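import Mathlib
import Pool.Agent.helper60.CohenSetup

set_option autoImplicit false

/-!
# The Cohen model contains a selective independent family

The universe `V` of sets is the universe of sets over `Type` (the universe of Mathlib's `ZFSet`),
which we assume to satisfy the continuum hypothesis. For the poset `Cohen K = Fn(K × ω, 2)`, where
`K` is a set of cardinality `ℵ₂`, we show that every condition forces the first-order sentence
`selectiveSentence` of the language of set theory, which says that there is a selective independent
family. In other words, this sentence holds in `V[G]`.
-/

open Cardinal FirstOrder FirstOrder.Language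

namespace Pool.Agent.Results.MP_4ce21c_lc.CohenModelSelective

open Pool.Agent.helper60

/-- `p ⊩ φ` for a sentence `φ` of the language of set theory. -/
def ForcesSentence {P : Type} [Preorder P] (p : P) (φ : LSet.Sentence) : Prop :=
  Forces φ (default : Empty → Name P) (default : Fin 0 → Name P) p

/-- **The Cohen model contains a selective independent family.** Assume the continuum hypothesis
and let `K` be a set of cardinality `ℵ₂`. Then every condition of the Cohen poset `Fn(K × ω, 2)`
forces that there is a selective independent family. -/
theorem result (hCH : (𝔠 : Cardinal.{0}) = ℵ₁) (K : Type) (hK : #K = ℵ_ 2) (p : Cohen K) :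
    ForcesSentence p selectiveSentence := by
  have hinf : ℵ₀ ≤ #K := by
    rw [hK]
    exact aleph0_le_aleph 2
  obtain ⟨_, _, e, he⟩ := exists_setup K hinf (by rw [hK]; exact aleph_two_pow hCH)
  exact forces_selective he _ _ p

end Pool.Agent.Results.MP_4ce21c_lc.CohenModelSelective
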