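import Mathlib
import Pool.Agent.helper60.GenReal

set_option autoImplicit false

/-!
# cov(M) = c implies the existence of a selective independent family
-/

open Set Cardinal

namespace Pool.Agent.Results.MP_4ce21c_lc.CovMeagerContinuum

open Pool.Agent.helper60

/-! ## Definitions -/

/-- The Boolean combination `I^h`, for the finite partial function `h` with `h⁻¹(0) = A` and
`h⁻¹(1) = B`: the intersection of the members of `A` minus the union of the members of `B`. -/
def comb (A B : Finset (Set ℕ)) : Set ℕ := {n | (∀ a ∈ A, n ∈ a) ∧ ∀ b ∈ B, n ∉ b}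

/-- `(A, B)` represents a finite partial function `h : I → 2`, namely the one with
`h⁻¹(0) = A` and `h⁻¹(1) = B`. -/
def IsFF (I : Set (Set ℕ)) (A B : Finset (Set ℕ)) : Prop :=
  (A : Set (Set ℕ)) ⊆ I ∧ (B : Set (Set ℕ)) ⊆ I ∧ Disjoint A B

/-- `I` is an independent family of infinite sets. -/
def IsIndependent (I : Set (Set ℕ)) : Prop :=
  (∀ a ∈ I, a.Infinite) ∧ ∀ A B, IsFF I A B → (comb A B).Infinite

/-- `I` is densely maximal. -/
def DenselyMaximal (I : Set (Set ℕ)) : Prop :=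
  ∀ X : Set ℕ, X.Infinite → ∀ A B, IsFF I A B → ∃ A' B', IsFF I A' B' ∧ A ⊆ A' ∧ B ⊆ B' ∧
    ((comb A' B' \ X).Finite ∨ (comb A' B' ∩ X).Finite)

/-- The density filter of `I`. -/
def densityFilter (I : Set (Set ℕ)) : Set (Set ℕ) :=
  {X | X.Infinite ∧ ∀ A B, IsFF I A B → ∃ A' B', IsFF I A' B' ∧ A ⊆ A' ∧ B ⊆ B' ∧
    (comb A' B' \ X).Finite}

/-- `F` is a P-set: each countable subfamily has a pseudointersection in `F`. -/
def IsPSet (F : Set (Set ℕ)) : Prop :=
  ∀ 𝒜 : Set (Set ℕ), 𝒜.Countable → 𝒜 ⊆ F → ∃ B ∈ F, ∀ A ∈ 𝒜, (B \ A).Finite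

/-- `F` is a Q-set: each partition of the naturals into finite sets has a partial selector
in `F`. -/
def IsQSet (F : Set (Set ℕ)) : Prop :=
  ∀ E : ℕ → Set ℕ, (∀ n, (E n).Finite) → (∀ m n, m ≠ n → Disjoint (E m) (E n)) →
    (⋃ n, E n) = Set.univ → ∃ A ∈ F, ∀ n, (A ∩ E n).Subsingleton

/-- `I` is a selective independent family. -/
def IsSelective (I : Set (Set ℕ)) : Prop :=
  IsIndependent I ∧ DenselyMaximal I ∧ IsPSet (densityFilter I) ∧ IsQSet (densityFilter I)

/-! ## The combinatorial core -/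

/-- The items handled by the recursion. -/
inductive Item
  | C (Z : Set ℕ)
  | P (A : ℕ → Set ℕ)
  | Q (g : ℕ → ℕ)

/-- Items of the first kind. -/
def Item.isC : Item → Prop
  | Item.C _ => True
  | _ => False

section Core

variable {ι : Type} [LinearOrder ι] [WellFoundedLT ι]

/-- Index level Boolean combinations. -/
def Y (S : ι → Set ℕ) (A B : Finset ι) : Set ℕ := {m | (∀ β ∈ A, m ∈ S β) ∧ ∀ β ∈ B, m ∉ S β}

/-- Legal pairs of finite sets of indices. -/
def Legal (e : ι → Item) (A B : Finset ι) : Prop := Disjoint A B ∧ ∀ β ∈ B, (e β).isC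

/-- All members of the finite set are below `α`. -/
def Below (α : ι) (A : Finset ι) : Prop := ∀ β ∈ A, β < α

/-- The requirements on the set `s` chosen at stage `α`. -/
structure Good (e : ι → Item) (α : ι) (S : ι → Set ℕ) (s : Set ℕ) : Prop where
  pos : (∀ A B, Legal e A B → Below α A → Below α B → (Y S A B).Infinite) →
    ∀ A B, Legal e A B → Below α A → Below α B → (Y S A B ∩ s).Infinite
  neg : (∀ A B, Legal e A B → Below α A → Below α B → (Y S A B).Infinite) → (e α).isC →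
    ∀ A B, Legal e A B → Below α A → Below α B → (Y S A B \ s).Infinite
  stC : ∀ Z, e α = Item.C Z →
    (∀ A B, Legal e A B → Below α A → Below α B → (Y S A B ∩ Z).Infinite) → s ⊆ Z
  stP : ∀ D : ℕ → Set ℕ, e α = Item.P D →
    (∀ A B, Legal e A B → Below α A → Below α B →
      ∀ n, (Y S A B ∩ {m | ∀ i ≤ n, m ∈ D i}).Infinite) → ∀ n, (s \ D n).Finite
  stQ : ∀ g : ℕ → ℕ, e α = Item.Q g → (∀ k, {m | g m = k}.Finite) →
    ∀ a ∈ s, ∀ b ∈ s, g a = g b → a = b

theorem Y_congr {S S' : ι → Set ℕ} {α : ι} (h : ∀ β < α, S β = S' β) {A B : Finset ι}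
    (hA : Below α A) (hB : Below α B) : Y S A B = Y S' A B := by
  ext m
  constructor
  · rintro ⟨h1, h2⟩
    exact ⟨fun β hβ => h β (hA β hβ) ▸ h1 β hβ, fun β hβ => h β (hB β hβ) ▸ h2 β hβ⟩
  · rintro ⟨h1, h2⟩
    exact ⟨fun β hβ => (h β (hA β hβ)).symm ▸ h1 β hβ,
      fun β hβ => (h β (hB β hβ)).symm ▸ h2 β hβ⟩

theorem Good.congr {e : ι → Item} {α : ι} {S S' : ι → Set ℕ} {s : Set ℕ}
    (h : ∀ β < α, S β = S' β) (hg : Good e α S s) : Good e α S' s := by
  have key : ∀ A B, Below α A → Below α B → Y S' A B = Y S A B := fun A B hA hB =>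
    (Y_congr h hA hB).symm
  constructor
  · intro h1 A B hL hA hB
    rw [key A B hA hB]
    refine hg.pos (fun A B hL hA hB => ?_) A B hL hA hB
    rw [← key A B hA hB]
    exact h1 A B hL hA hB
  · intro h1 hC A B hL hA hB
    rw [key A B hA hB]
    refine hg.neg (fun A B hL hA hB => ?_) hC A B hL hA hB
    rw [← key A B hA hB]
    exact h1 A B hL hA hB
  · intro Z hZ h1
    refine hg.stC Z hZ (fun A B hL hA hB => ?_)
    rw [← key A B hA hB]
    exact h1 A B hL hA hB
  · intro D hD h1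
    refine hg.stP D hD (fun A B hL hA hB => ?_)
    rw [← key A B hA hB]
    exact h1 A B hL hA hB
  · exact hg.stQ

/-- Transfinite recursion with choice. -/
theorem exists_seq (e : ι → Item) (h : ∀ α (S : ι → Set ℕ), ∃ s, Good e α S s) :
    ∃ S : ι → Set ℕ, ∀ α, Good e α S (S α) := by
  classical
  choose f hf using h
  let F : ∀ α : ι, (∀ β, β < α → Set ℕ) → Set ℕ := fun α T =>
    f α (fun β => if hβ : β < α then T β hβ else ∅)
  let wf : WellFounded ((· < ·) : ι → ι → Prop) := wellFounded_lt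
  refine ⟨wf.fix F, fun α => ?_⟩
  have h1 : wf.fix F α = f α (fun β => if β < α then wf.fix F β else ∅) := by
    rw [wf.fix_eq]
    rfl
  rw [h1]
  refine (hf α (fun β => if β < α then wf.fix F β else ∅)).congr ?_
  intro β hβ
  simp [hβ]

section Final

variable {e : ι → Item} {S : ι → Set ℕ}

theorem Y_infinite_below (hS : ∀ α, Good e α S (S α)) (α : ι) :
    ∀ A B, Legal e A B → Below α A → Below α B → (Y S A B).Infinite := by
  classical
  induction α using WellFoundedLT.induction with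
  | ind α ih =>
    intro A B hL hA hB
    by_cases hU : (A ∪ B).Nonempty
    · let μ := (A ∪ B).max' hU
      have hμ : μ ∈ A ∪ B := Finset.max'_mem _ _
      have hmax : ∀ β ∈ A ∪ B, β ≤ μ := fun β hβ => Finset.le_max' _ β hβ
      have hμα : μ < α := by
        rcases Finset.mem_union.1 hμ with h | h
        · exact hA μ h
        · exact hB μ h
      have hA' : Below μ (A.erase μ) := fun β hβ =>
        lt_of_le_of_ne (hmax β (Finset.mem_union_left _ (Finset.mem_of_mem_erase hβ)))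
          (Finset.ne_of_mem_erase hβ)
      have hB' : Below μ (B.erase μ) := fun β hβ =>
        lt_of_le_of_ne (hmax β (Finset.mem_union_right _ (Finset.mem_of_mem_erase hβ)))
          (Finset.ne_of_mem_erase hβ)
      have hL' : Legal e (A.erase μ) (B.erase μ) :=
        ⟨hL.1.mono (Finset.erase_subset _ _) (Finset.erase_subset _ _),
          fun β hβ => hL.2 β (Finset.mem_of_mem_erase hβ)⟩
      by_cases hμA : μ ∈ A
      · have hμB : μ ∉ B := Finset.disjoint_left.1 hL.1 hμA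
        have h1 := (hS μ).pos (ih μ hμα) _ _ hL' hA' hB'
        refine h1.mono ?_
        rintro m ⟨⟨h2, h3⟩, h4⟩
        refine ⟨fun β hβ => ?_, fun β hβ => ?_⟩
        · by_cases hβμ : β = μ
          · rw [hβμ]; exact h4
          · exact h2 β (Finset.mem_erase.2 ⟨hβμ, hβ⟩)
        · exact h3 β (Finset.mem_erase.2 ⟨fun h => hμB (h ▸ hβ), hβ⟩)
      · have hμB : μ ∈ B := (Finset.mem_union.1 hμ).resolve_left hμA
        have h1 := (hS μ).neg (ih μ hμα) (hL.2 μ hμB) _ _ hL' hA' hB'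
        refine h1.mono ?_
        rintro m ⟨⟨h2, h3⟩, h4⟩
        refine ⟨fun β hβ => ?_, fun β hβ => ?_⟩
        · exact h2 β (Finset.mem_erase.2 ⟨fun h => hμA (h ▸ hβ), hβ⟩)
        · by_cases hβμ : β = μ
          · rw [hβμ]; exact h4
          · exact h3 β (Finset.mem_erase.2 ⟨hβμ, hβ⟩)
    · rw [Finset.not_nonempty_iff_eq_empty, Finset.union_eq_empty] at hU
      rw [hU.1, hU.2]
      have : Y S ∅ ∅ = Set.univ := by
        ext m; simp [Y]
      rw [this]
      exact Set.infinite_univ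

variable (he : ∀ (it : Item) (β : ι), ∃ γ, β < γ ∧ e γ = it)
include he

theorem exists_above (A : Finset ι) (hne : Nonempty ι) (it : Item) :
    ∃ γ, Below γ A ∧ e γ = it := by
  classical
  by_cases hA : A.Nonempty
  · obtain ⟨γ, h1, h2⟩ := he it (A.max' hA)
    exact ⟨γ, fun β hβ => lt_of_le_of_lt (Finset.le_max' _ β hβ) h1, h2⟩
  · obtain ⟨β⟩ := hne
    obtain ⟨γ, _, h2⟩ := he it β
    refine ⟨γ, fun β hβ => absurd ⟨β, hβ⟩ hA, h2⟩

theorem Y_infinite (hne : Nonempty ι) (hS : ∀ α, Good e α S (S α)) (A B : Finset ι)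
    (hL : Legal e A B) : (Y S A B).Infinite := by
  classical
  obtain ⟨γ, h1, -⟩ := exists_above he (A ∪ B) hne (Item.C ∅)
  exact Y_infinite_below hS γ A B hL (fun β hβ => h1 β (Finset.mem_union_left _ hβ))
    (fun β hβ => h1 β (Finset.mem_union_right _ hβ))

/-- Index level finite partial functions. -/
def FFx (e : ι → Item) (A B : Finset ι) : Prop :=
  Disjoint A B ∧ (∀ β ∈ A, (e β).isC) ∧ ∀ β ∈ B, (e β).isC

omit he in
theorem FFx.legal {A B : Finset ι} (h : FFx e A B) : Legal e A B := ⟨h.1, h.2.2⟩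

/-- Every set used by the recursion is densely above some `S γ` with `e γ` of the first kind. -/
theorem dense_below (hne : Nonempty ι) (hS : ∀ α, Good e α S (S α)) (β : ι) (A B : Finset ι)
    (hAB : FFx e A B) (hβ : ¬ (e β).isC) :
    ∃ A', FFx e A' B ∧ A ⊆ A' ∧ Y S A' B ⊆ S β := by
  classical
  obtain ⟨γ, h1, h2⟩ := exists_above he (A ∪ B ∪ {β}) hne (Item.C (S β))
  have hγC : (e γ).isC := by rw [h2]; trivial
  have hsub : S γ ⊆ S β := by
    refine (hS γ).stC _ h2 ?_
    intro A' B' hL hA' hB'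
    have h3 : (Y S (insert β A') B').Infinite := by
      refine Y_infinite he hne hS _ _ ⟨?_, hL.2⟩
      rw [Finset.disjoint_insert_left]
      exact ⟨fun h => hβ (hL.2 β h), hL.1⟩
    refine h3.mono ?_
    rintro m ⟨h4, h5⟩
    exact ⟨⟨fun δ hδ => h4 δ (Finset.mem_insert_of_mem hδ), h5⟩, h4 β (Finset.mem_insert_self _ _)⟩
  refine ⟨insert γ A, ⟨?_, ?_, hAB.2.2⟩, Finset.subset_insert _ _, ?_⟩
  · rw [Finset.disjoint_insert_left]
    refine ⟨fun h => ?_, hAB.1⟩
    exact lt_irrefl γ (h1 γ (Finset.mem_union_left _ (Finset.mem_union_right _ h)))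
  · intro δ hδ
    rcases Finset.mem_insert.1 hδ with h | h
    · rw [h]; exact hγC
    · exact hAB.2.1 δ h
  · rintro m ⟨h4, _⟩
    exact hsub (h4 γ (Finset.mem_insert_self _ _))

/-- The same for finitely many sets. -/
theorem dense_below_finset (hne : Nonempty ι) (hS : ∀ α, Good e α S (S α)) (F : Finset ι)
    (A B : Finset ι) (hAB : FFx e A B) (hF : ∀ β ∈ F, ¬ (e β).isC) :
    ∃ A', FFx e A' B ∧ A ⊆ A' ∧ ∀ β ∈ F, Y S A' B ⊆ S β := by
  classical
  induction F using Finset.induction_on with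
  | empty => exact ⟨A, hAB, subset_rfl, by simp⟩
  | insert β F hβ ih =>
    obtain ⟨A₁, h1, h2, h3⟩ := ih (fun δ hδ => hF δ (Finset.mem_insert_of_mem hδ))
    obtain ⟨A₂, h4, h5, h6⟩ := dense_below he hne hS β A₁ B h1 (hF β (Finset.mem_insert_self _ _))
    refine ⟨A₂, h4, h2.trans h5, fun δ hδ => ?_⟩
    rcases Finset.mem_insert.1 hδ with h | h
    · rw [h]; exact h6
    · refine Set.Subset.trans ?_ (h3 δ h)
      rintro m ⟨h7, h8⟩
      exact ⟨fun ε hε => h7 ε (h5 hε), h8⟩

omit he in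
theorem Y_mono {A A' B B' : Finset ι} (hA : A ⊆ A') (hB : B ⊆ B') : Y S A' B' ⊆ Y S A B := by
  rintro m ⟨h1, h2⟩
  exact ⟨fun β hβ => h1 β (hA hβ), fun β hβ => h2 β (hB hβ)⟩

/-- Index level density filter. -/
def filx (e : ι → Item) (S : ι → Set ℕ) : Set (Set ℕ) :=
  {X | ∀ A B, FFx e A B → ∃ A' B', FFx e A' B' ∧ A ⊆ A' ∧ B ⊆ B' ∧ (Y S A' B' \ X).Finite}

omit he in
theorem filx_inter {X X' : Set ℕ} (h : X ∈ filx e S) (h' : X' ∈ filx e S) :
    X ∩ X' ∈ filx e S := by
  intro A B hAB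
  obtain ⟨A₁, B₁, h1, h2, h3, h4⟩ := h A B hAB
  obtain ⟨A₂, B₂, h5, h6, h7, h8⟩ := h' A₁ B₁ h1
  refine ⟨A₂, B₂, h5, h2.trans h6, h3.trans h7, ?_⟩
  refine (h4.union h8).subset ?_
  rintro m ⟨h9, h10⟩
  by_cases hm : m ∈ X
  · exact Or.inr ⟨h9, fun h11 => h10 ⟨hm, h11⟩⟩
  · exact Or.inl ⟨Y_mono h6 h7 h9, hm⟩

omit he in
theorem filx_univ : (Set.univ : Set ℕ) ∈ filx e S := by
  intro A B hAB
  exact ⟨A, B, hAB, subset_rfl, subset_rfl, by simp⟩

omit he in
theorem filx_iInter {D : ℕ → Set ℕ} (h : ∀ n, D n ∈ filx e S) (n : ℕ) :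
    {m | ∀ i ≤ n, m ∈ D i} ∈ filx e S := by
  induction n with
  | zero =>
    have : {m | ∀ i ≤ 0, m ∈ D i} = D 0 := by ext m; simp
    rw [this]
    exact h 0
  | succ n ih =>
    have : {m | ∀ i ≤ n + 1, m ∈ D i} = {m | ∀ i ≤ n, m ∈ D i} ∩ D (n + 1) := by
      ext m
      constructor
      · intro hm
        exact ⟨fun i hi => hm i (by omega), hm _ le_rfl⟩
      · rintro ⟨h1, h2⟩ i hi
        rcases Nat.lt_or_ge i (n + 1) with h3 | h3
        · exact h1 i (by omega)
        · have : i = n + 1 := by omega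
          rw [this]; exact h2
    rw [this]
    exact filx_inter ih (h _)

theorem S_mem_filx (hne : Nonempty ι) (hS : ∀ α, Good e α S (S α)) (β : ι) (hβ : ¬ (e β).isC) :
    S β ∈ filx e S := by
  intro A B hAB
  obtain ⟨A', h1, h2, h3⟩ := dense_below he hne hS β A B hAB hβ
  refine ⟨A', B, h1, h2, subset_rfl, ?_⟩
  rw [Set.sdiff_eq_empty.2 h3]
  exact Set.finite_empty

/-- A set of the index level density filter meets every legal combination in an infinite set. -/
theorem filx_inf (hne : Nonempty ι) (hS : ∀ α, Good e α S (S α)) {X : Set ℕ}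
    (hX : X ∈ filx e S) (A B : Finset ι) (hL : Legal e A B) : (Y S A B ∩ X).Infinite := by
  classical
  have hFF : FFx e (A.filter (fun β => (e β).isC)) B :=
    ⟨hL.1.mono_left (Finset.filter_subset _ _), fun β hβ => (Finset.mem_filter.1 hβ).2, hL.2⟩
  obtain ⟨A₁, h1, h2, h3⟩ := dense_below_finset he hne hS (A.filter (fun β => ¬ (e β).isC)) _ B hFF
    (fun β hβ => (Finset.mem_filter.1 hβ).2)
  obtain ⟨A₂, B₂, h4, h5, h6, h7⟩ := hX A₁ B h1
  have hsub : Y S A₂ B₂ ⊆ Y S A B := by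
    intro m hm
    have hm1 : m ∈ Y S A₁ B := Y_mono h5 h6 hm
    refine ⟨fun β hβ => ?_, hm1.2⟩
    by_cases hC : (e β).isC
    · exact hm1.1 β (h2 (Finset.mem_filter.2 ⟨hβ, hC⟩))
    · exact h3 β (Finset.mem_filter.2 ⟨hβ, hC⟩) hm1
  have hinf := Y_infinite he hne hS A₂ B₂ h4.legal
  have : (Y S A₂ B₂ \ (Y S A₂ B₂ \ X)).Infinite := hinf.sdiff h7
  refine this.mono ?_
  rintro m ⟨h8, h9⟩
  refine ⟨hsub h8, ?_⟩
  by_contra h10
  exact h9 ⟨h8, h10⟩

theorem dense_max (hne : Nonempty ι) (hS : ∀ α, Good e α S (S α)) (X : Set ℕ) (A B : Finset ι)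
    (hAB : FFx e A B) : ∃ A' B', FFx e A' B' ∧ A ⊆ A' ∧ B ⊆ B' ∧
      ((Y S A' B' \ X).Finite ∨ (Y S A' B' ∩ X).Finite) := by
  classical
  obtain ⟨γ, h1, h2⟩ := exists_above he (A ∪ B) hne (Item.C {m | m ∈ Y S A B → m ∈ X})
  have hγC : (e γ).isC := by rw [h2]; trivial
  by_cases hcond : ∀ A' B', Legal e A' B' → Below γ A' → Below γ B' →
      (Y S A' B' ∩ {m | m ∈ Y S A B → m ∈ X}).Infinite
  · have hsub := (hS γ).stC _ h2 hcond
    refine ⟨insert γ A, B, ⟨?_, ?_, hAB.2.2⟩, Finset.subset_insert _ _, subset_rfl, Or.inl ?_⟩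
    · rw [Finset.disjoint_insert_left]
      exact ⟨fun h => lt_irrefl γ (h1 γ (Finset.mem_union_right _ h)), hAB.1⟩
    · intro δ hδ
      rcases Finset.mem_insert.1 hδ with h | h
      · rw [h]; exact hγC
      · exact hAB.2.1 δ h
    · have : Y S (insert γ A) B \ X = ∅ := by
        rw [Set.sdiff_eq_empty]
        intro m hm
        exact hsub (hm.1 γ (Finset.mem_insert_self _ _))
          (Y_mono (Finset.subset_insert γ A) subset_rfl hm)
      rw [this]
      exact Set.finite_empty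
  · push Not at hcond
    obtain ⟨A', B', hL, -, -, hfin⟩ := hcond
    have hinf := Y_infinite he hne hS A' B' hL
    have hcomp : Disjoint A' B ∧ Disjoint A B' := by
      by_contra hcon
      have hempty : Y S A' B' ⊆ {m | m ∈ Y S A B → m ∈ X} := by
        intro m hm hm'
        exfalso
        apply hcon
        refine ⟨Finset.disjoint_left.2 fun β h3 h4 => hm'.2 β h4 (hm.1 β h3),
          Finset.disjoint_left.2 fun β h3 h4 => hm.2 β h4 (hm'.1 β h3)⟩
      rw [Set.inter_eq_left.2 hempty] at hfin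
      exact hinf hfin
    have hFF : FFx e (A ∪ A'.filter (fun β => (e β).isC)) (B ∪ B') := by
      refine ⟨?_, ?_, ?_⟩
      · rw [Finset.disjoint_union_left, Finset.disjoint_union_right, Finset.disjoint_union_right]
        exact ⟨⟨hAB.1, hcomp.2⟩, hcomp.1.mono_left (Finset.filter_subset _ _),
          hL.1.mono_left (Finset.filter_subset _ _)⟩
      · intro β hβ
        rcases Finset.mem_union.1 hβ with h | h
        · exact hAB.2.1 β h
        · exact (Finset.mem_filter.1 h).2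
      · intro β hβ
        rcases Finset.mem_union.1 hβ with h | h
        · exact hAB.2.2 β h
        · exact hL.2 β h
    obtain ⟨A₁, h3, h4, h5⟩ := dense_below_finset he hne hS (A'.filter (fun β => ¬ (e β).isC)) _ _
      hFF (fun β hβ => (Finset.mem_filter.1 hβ).2)
    refine ⟨A₁, B ∪ B', h3, Finset.subset_union_left.trans h4, Finset.subset_union_left,
      Or.inr ?_⟩
    refine hfin.subset ?_
    rintro m ⟨h6, h7⟩
    refine ⟨⟨fun β hβ => ?_, fun β hβ => h6.2 β (Finset.mem_union_right _ hβ)⟩, fun _ => h7⟩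
    by_cases hC : (e β).isC
    · exact h6.1 β (h4 (Finset.mem_union_right _ (Finset.mem_filter.2 ⟨hβ, hC⟩)))
    · exact h5 β (Finset.mem_filter.2 ⟨hβ, hC⟩) h6

omit he in
theorem S_inj_on (hinf : ∀ A B, Legal e A B → (Y S A B).Infinite) {β γ : ι} (hγ : (e γ).isC)
    (h : S β = S γ) : β = γ := by
  classical
  by_contra hne
  have h1 := hinf {β} {γ} ⟨by simpa using hne, by simpa using hγ⟩
  obtain ⟨m, h2, h3⟩ := h1.nonempty
  exact h3 γ (Finset.mem_singleton_self _) (h ▸ h2 β (Finset.mem_singleton_self _))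

/-- The family produced by the recursion. -/
def fam (e : ι → Item) (S : ι → Set ℕ) : Set (Set ℕ) := {s | ∃ β, (e β).isC ∧ S β = s}

omit he in
theorem exists_preimage (hne : Nonempty ι) {𝒜 ℬ : Finset (Set ℕ)} (h : IsFF (fam e S) 𝒜 ℬ) :
    ∃ A B, FFx e A B ∧ (∀ s, s ∈ 𝒜 ↔ ∃ β ∈ A, S β = s) ∧ (∀ s, s ∈ ℬ ↔ ∃ β ∈ B, S β = s) := by
  classical
  obtain ⟨h1, h2, h3⟩ := h
  have h1' : ∀ s : Set ℕ, ∃ β : ι, s ∈ fam e S → ((e β).isC ∧ S β = s) := by
    intro s
    by_cases hs : s ∈ fam e S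
    · obtain ⟨β, hβ⟩ := hs
      exact ⟨β, fun _ => hβ⟩
    · exact ⟨hne.some, fun h => absurd h hs⟩
  choose idx hidx using h1'
  refine ⟨𝒜.image idx, ℬ.image idx, ⟨?_, ?_, ?_⟩, ?_, ?_⟩
  · rw [Finset.disjoint_left]
    intro β hβ hβ'
    obtain ⟨s, hs, rfl⟩ := Finset.mem_image.1 hβ
    obtain ⟨t, ht, hst⟩ := Finset.mem_image.1 hβ'
    have : s = t := by
      rw [← (hidx s (h1 hs)).2, ← (hidx t (h2 ht)).2, hst]
    exact Finset.disjoint_left.1 h3 hs (this ▸ ht)
  · intro β hβ
    obtain ⟨s, hs, rfl⟩ := Finset.mem_image.1 hβ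
    exact (hidx s (h1 hs)).1
  · intro β hβ
    obtain ⟨s, hs, rfl⟩ := Finset.mem_image.1 hβ
    exact (hidx s (h2 hs)).1
  · intro s
    constructor
    · intro hs
      exact ⟨idx s, Finset.mem_image_of_mem _ hs, (hidx s (h1 hs)).2⟩
    · rintro ⟨β, hβ, rfl⟩
      obtain ⟨s, hs, rfl⟩ := Finset.mem_image.1 hβ
      rw [(hidx s (h1 hs)).2]
      exact hs
  · intro s
    constructor
    · intro hs
      exact ⟨idx s, Finset.mem_image_of_mem _ hs, (hidx s (h2 hs)).2⟩
    · rintro ⟨β, hβ, rfl⟩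
      obtain ⟨s, hs, rfl⟩ := Finset.mem_image.1 hβ
      rw [(hidx s (h2 hs)).2]
      exact hs

omit he in
theorem comb_eq {𝒜 ℬ : Finset (Set ℕ)} {A B : Finset ι} (hA : ∀ s, s ∈ 𝒜 ↔ ∃ β ∈ A, S β = s)
    (hB : ∀ s, s ∈ ℬ ↔ ∃ β ∈ B, S β = s) : comb 𝒜 ℬ = Y S A B := by
  ext m
  constructor
  · rintro ⟨h1, h2⟩
    exact ⟨fun β hβ => h1 _ ((hA _).2 ⟨β, hβ, rfl⟩), fun β hβ => h2 _ ((hB _).2 ⟨β, hβ, rfl⟩)⟩
  · rintro ⟨h1, h2⟩
    refine ⟨fun s hs => ?_, fun s hs => ?_⟩
    · obtain ⟨β, hβ, rfl⟩ := (hA s).1 hs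
      exact h1 β hβ
    · obtain ⟨β, hβ, rfl⟩ := (hB s).1 hs
      exact h2 β hβ

omit he in
/-- Transfer of an extension from the index level to the set level. -/
theorem exists_ext (hinf : ∀ A B, Legal e A B → (Y S A B).Infinite)
    {𝒜 ℬ : Finset (Set ℕ)} {A B A' B' : Finset ι} (hA : ∀ s, s ∈ 𝒜 ↔ ∃ β ∈ A, S β = s)
    (hB : ∀ s, s ∈ ℬ ↔ ∃ β ∈ B, S β = s) (h' : FFx e A' B') (hAA : A ⊆ A') (hBB : B ⊆ B') :
    ∃ 𝒜' ℬ', IsFF (fam e S) 𝒜' ℬ' ∧ 𝒜 ⊆ 𝒜' ∧ ℬ ⊆ ℬ' ∧ comb 𝒜' ℬ' = Y S A' B' := by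
  classical
  refine ⟨A'.image S, B'.image S, ⟨?_, ?_, ?_⟩, ?_, ?_, ?_⟩
  · intro s hs
    obtain ⟨β, hβ, rfl⟩ := Finset.mem_image.1 (Finset.mem_coe.1 hs)
    exact ⟨β, h'.2.1 β hβ, rfl⟩
  · intro s hs
    obtain ⟨β, hβ, rfl⟩ := Finset.mem_image.1 (Finset.mem_coe.1 hs)
    exact ⟨β, h'.2.2 β hβ, rfl⟩
  · rw [Finset.disjoint_left]
    intro s hs hs'
    obtain ⟨β, hβ, rfl⟩ := Finset.mem_image.1 hs
    obtain ⟨γ, hγ, hγβ⟩ := Finset.mem_image.1 hs'
    have : γ = β := S_inj_on hinf (h'.2.1 β hβ) hγβ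
    exact Finset.disjoint_left.1 h'.1 hβ (this ▸ hγ)
  · intro s hs
    obtain ⟨β, hβ, rfl⟩ := (hA s).1 hs
    exact Finset.mem_image_of_mem _ (hAA hβ)
  · intro s hs
    obtain ⟨β, hβ, rfl⟩ := (hB s).1 hs
    exact Finset.mem_image_of_mem _ (hBB hβ)
  · exact comb_eq (fun s => by simp) (fun s => by simp)

omit he in
theorem mem_densityFilter_iff (hne : Nonempty ι) (hinf : ∀ A B, Legal e A B → (Y S A B).Infinite) (X : Set ℕ) :
    X ∈ densityFilter (fam e S) ↔ X.Infinite ∧ X ∈ filx e S := by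
  classical
  constructor
  · rintro ⟨h1, h2⟩
    refine ⟨h1, ?_⟩
    intro A B hAB
    have hFF : IsFF (fam e S) (A.image S) (B.image S) := by
      refine ⟨?_, ?_, ?_⟩
      · intro s hs
        obtain ⟨β, hβ, rfl⟩ := Finset.mem_image.1 (Finset.mem_coe.1 hs)
        exact ⟨β, hAB.2.1 β hβ, rfl⟩
      · intro s hs
        obtain ⟨β, hβ, rfl⟩ := Finset.mem_image.1 (Finset.mem_coe.1 hs)
        exact ⟨β, hAB.2.2 β hβ, rfl⟩
      · rw [Finset.disjoint_left]
        intro s hs hs'
        obtain ⟨β, hβ, rfl⟩ := Finset.mem_image.1 hs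
        obtain ⟨γ, hγ, hγβ⟩ := Finset.mem_image.1 hs'
        have : γ = β := S_inj_on hinf (hAB.2.1 β hβ) hγβ
        exact Finset.disjoint_left.1 hAB.1 hβ (this ▸ hγ)
    obtain ⟨𝒜', ℬ', h3, h4, h5, h6⟩ := h2 _ _ hFF
    obtain ⟨A', B', h7, h8, h9⟩ := exists_preimage hne h3
    refine ⟨A', B', h7, ?_, ?_, ?_⟩
    · intro β hβ
      obtain ⟨γ, hγ, h10⟩ := (h8 (S β)).1 (h4 (Finset.mem_image_of_mem _ hβ))
      have : γ = β := S_inj_on hinf (hAB.2.1 β hβ) h10
      exact this ▸ hγ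
    · intro β hβ
      obtain ⟨γ, hγ, h10⟩ := (h9 (S β)).1 (h5 (Finset.mem_image_of_mem _ hβ))
      have : γ = β := S_inj_on hinf (hAB.2.2 β hβ) h10
      exact this ▸ hγ
    · rw [← comb_eq h8 h9]
      exact h6
  · rintro ⟨h1, h2⟩
    refine ⟨h1, ?_⟩
    intro 𝒜 ℬ hFF
    obtain ⟨A, B, h3, h4, h5⟩ := exists_preimage hne hFF
    obtain ⟨A', B', h6, h7, h8, h9⟩ := h2 A B h3
    obtain ⟨𝒜', ℬ', h10, h11, h12, h13⟩ := exists_ext hinf h4 h5 h6 h7 h8
    refine ⟨𝒜', ℬ', h10, h11, h12, ?_⟩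
    rw [h13]
    exact h9

theorem selective (hne : Nonempty ι) (hS : ∀ α, Good e α S (S α)) : IsSelective (fam e S) := by
  classical
  have hinf : ∀ A B, Legal e A B → (Y S A B).Infinite := Y_infinite he hne hS
  have hSinf : ∀ β, (S β).Infinite := by
    intro β
    refine (hinf {β} ∅ ⟨by simp, by simp⟩).mono ?_
    intro m hm
    exact hm.1 β (Finset.mem_singleton_self _)
  have hfil : ∀ β, ¬ (e β).isC → S β ∈ densityFilter (fam e S) := fun β hβ =>
    (mem_densityFilter_iff hne hinf _).2 ⟨hSinf β, S_mem_filx he hne hS β hβ⟩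
  refine ⟨⟨?_, ?_⟩, ?_, ?_, ?_⟩
  · rintro _ ⟨β, -, rfl⟩
    exact hSinf β
  · intro 𝒜 ℬ hFF
    obtain ⟨A, B, h1, h2, h3⟩ := exists_preimage hne hFF
    rw [comb_eq h2 h3]
    exact hinf A B h1.legal
  · intro X _ 𝒜 ℬ hFF
    obtain ⟨A, B, h1, h2, h3⟩ := exists_preimage hne hFF
    obtain ⟨A', B', h4, h5, h6, h7⟩ := dense_max he hne hS X A B h1
    obtain ⟨𝒜', ℬ', h10, h11, h12, h13⟩ := exists_ext hinf h2 h3 h4 h5 h6
    refine ⟨𝒜', ℬ', h10, h11, h12, ?_⟩
    rw [h13]
    exact h7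
  · intro 𝒜 hc h𝒜
    by_cases hemp : 𝒜.Nonempty
    · obtain ⟨D, hD⟩ := hc.exists_eq_range hemp
      have hD' : ∀ n, D n ∈ filx e S := fun n =>
        ((mem_densityFilter_iff hne hinf _).1 (h𝒜 (hD ▸ Set.mem_range_self n))).2
      obtain ⟨γ, -, h2⟩ := exists_above he ∅ hne (Item.P D)
      refine ⟨S γ, hfil γ (by rw [h2]; exact fun h => h), ?_⟩
      intro s hs
      rw [hD] at hs
      obtain ⟨n, rfl⟩ := hs
      refine (hS γ).stP D h2 ?_ n
      intro A B hL _ _ n
      exact filx_inf he hne hS (filx_iInter hD' n) A B hL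
    · refine ⟨Set.univ, (mem_densityFilter_iff hne hinf _).2 ⟨Set.infinite_univ, filx_univ⟩, ?_⟩
      intro s hs
      exact absurd ⟨s, hs⟩ hemp
  · intro E hfin hdisj hun
    have hex : ∀ m : ℕ, ∃ n, m ∈ E n := by
      intro m
      have : m ∈ ⋃ n, E n := by rw [hun]; trivial
      exact Set.mem_iUnion.1 this
    choose g hg using hex
    have hguniq : ∀ m n, m ∈ E n → g m = n := by
      intro m n hmn
      by_contra hne
      exact Set.disjoint_left.1 (hdisj _ _ hne) (hg m) hmn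
    obtain ⟨γ, -, h2⟩ := exists_above he ∅ hne (Item.Q g)
    refine ⟨S γ, hfil γ (by rw [h2]; exact fun h => h), ?_⟩
    intro n a ha b hb
    refine (hS γ).stQ g h2 ?_ a ha.1 b hb.1 ?_
    · intro k
      refine (hfin k).subset ?_
      intro m hm
      have := hg m
      rw [show g m = k from hm] at this
      exact this
    · rw [hguniq a n ha.2, hguniq b n hb.2]

end Final

end Core

/-! ## Genericity -/

/-- The covering number of the meager ideal of the Cantor space. -/
noncomputable def covMeager : Cardinal.{0} :=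
  sInf {κ | ∃ 𝓜 : Set (Set (ℕ → Bool)), #𝓜 = κ ∧ (∀ M ∈ 𝓜, IsMeagre M) ∧ ⋃₀ 𝓜 = Set.univ}

theorem residual_infinite (W : (ℕ → Bool) → Set ℕ) (hopen : ∀ m, IsOpen {c | m ∈ W c})
    (hdense : ∀ (c₀ : ℕ → Bool) (L : ℕ), ∃ m, L ≤ m ∧ ∃ c : ℕ → Bool, (∀ j < L, c j = c₀ j) ∧
      m ∈ W c) : IsMeagre {c | (W c).Infinite}ᶜ := by
  have h1 : {c | (W c).Infinite} = ⋂ N : ℕ, ⋃ m : ℕ, {c | N ≤ m ∧ m ∈ W c} := by
    ext c
    simp only [Set.mem_iInter, Set.mem_iUnion, Set.mem_ofPred_eq]
    constructor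
    · intro h N
      obtain ⟨m, hm, hN⟩ := h.exists_gt N
      exact ⟨m, hN.le, hm⟩
    · intro h
      refine Set.infinite_of_not_bddAbove ?_
      rintro ⟨N, hN⟩
      obtain ⟨m, h2, h3⟩ := h (N + 1)
      have := hN h3
      omega
  rw [h1, IsMeagre, compl_compl]
  refine countable_iInter_mem.2 fun N => ?_
  refine residual_of_dense_open ?_ ?_
  · refine isOpen_iUnion fun m => ?_
    by_cases hm : N ≤ m
    · simpa [hm] using hopen m
    · simp [hm]
  · rw [dense_iff_inter_open]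
    rintro V hV ⟨c₀, hc₀⟩
    obtain ⟨F, u, h2, h3⟩ := isOpen_pi_iff.1 hV c₀ hc₀
    obtain ⟨m, hm, c, hc, hmc⟩ := hdense c₀ (F.sup id + 1 + N)
    refine ⟨c, h3 ?_, ?_⟩
    · intro j hj
      have h4 : j ≤ F.sup id := Finset.le_sup (f := id) hj
      rw [hc j (by omega)]
      exact (h2 j hj).2
    · exact Set.mem_iUnion.2 ⟨m, by omega, hmc⟩

theorem exists_generic (hcov : covMeager = 𝔠) {J : Type} (hJ : #J < 𝔠)
    (W : J → (ℕ → Bool) → Set ℕ) (hopen : ∀ j m, IsOpen {c | m ∈ W j c})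
    (hdense : ∀ j (c₀ : ℕ → Bool) (L : ℕ), ∃ m, L ≤ m ∧ ∃ c : ℕ → Bool, (∀ i < L, c i = c₀ i) ∧
      m ∈ W j c) : ∃ c, ∀ j, (W j c).Infinite := by
  by_contra hcon
  push Not at hcon
  have h1 : 𝔠 ≤ #(Set.range fun j => {c | (W j c).Infinite}ᶜ) := by
    rw [← hcov]
    refine csInf_le' ⟨_, rfl, ?_, ?_⟩
    · rintro _ ⟨j, rfl⟩
      exact residual_infinite (W j) (hopen j) (hdense j)
    · rw [Set.eq_univ_iff_forall]
      intro c
      obtain ⟨j, hj⟩ := hcon c
      exact ⟨_, ⟨j, rfl⟩, fun h => h hj⟩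
  exact absurd (h1.trans mk_range_le) (not_le.2 hJ)

theorem isOpen_coord (m : ℕ) (b : Bool) : IsOpen {c : ℕ → Bool | c m = b} := by
  have : {c : ℕ → Bool | c m = b} = (fun c : ℕ → Bool => c m) ⁻¹' {b} := rfl
  rw [this]
  exact (isOpen_discrete _).preimage (continuous_apply m)

/-- A set of reals which depends only on the values below some bound is open. -/
theorem isOpen_of_dep (U : Set (ℕ → Bool)) (k : ℕ)
    (h : ∀ c d : ℕ → Bool, (∀ j < k, c j = d j) → c ∈ U → d ∈ U) : IsOpen U := by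
  have : U = ⋃ c ∈ U, ⋂ j ∈ Finset.range k, {d : ℕ → Bool | d j = c j} := by
    ext d
    simp only [Set.mem_iUnion, Set.mem_iInter, Finset.mem_range, Set.mem_ofPred_eq]
    constructor
    · intro hd
      exact ⟨d, hd, fun j _ => rfl⟩
    · rintro ⟨c, hc, hcd⟩
      exact h c d (fun j hj => (hcd j hj).symm) hc
  rw [this]
  refine isOpen_biUnion fun c _ => ?_
  exact isOpen_biInter_finset fun j _ => isOpen_coord j _

/-- The real which agrees with `c₀` below `L`, vanishes on `[L, m)` and takes the value `b` from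
`m` on. -/
def patch (c₀ : ℕ → Bool) (L m : ℕ) (b : Bool) : ℕ → Bool := fun j =>
  if j < L then c₀ j else if j < m then false else b

theorem patch_lt (c₀ : ℕ → Bool) {L m j : ℕ} (b : Bool) (h : j < L) : patch c₀ L m b j = c₀ j := by
  simp [patch, h]

theorem patch_mid (c₀ : ℕ → Bool) {L m j : ℕ} (b : Bool) (h : L ≤ j) (h' : j < m) :
    patch c₀ L m b j = false := by
  simp [patch, not_lt.2 h, h']

theorem patch_self (c₀ : ℕ → Bool) {L m : ℕ} (b : Bool) (h : L ≤ m) : patch c₀ L m b m = b := by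
  simp [patch, not_lt.2 h]

theorem exists_good (hcov : covMeager = 𝔠) {ι : Type} [LinearOrder ι] [WellFoundedLT ι]
    (hι : ∀ α : ι, #(Set.Iio α) < 𝔠) (e : ι → Item) (α : ι) (S : ι → Set ℕ) :
    ∃ s, Good e α S s := by
  classical
  by_cases hcomp : ∀ A B, Legal e A B → Below α A → Below α B → (Y S A B).Infinite
  swap
  · refine ⟨∅, ⟨fun h => absurd h hcomp, fun h => absurd h hcomp, fun _ _ _ => Set.empty_subset _,
      fun D _ _ n => by simp, fun g _ _ a ha => absurd ha (Set.notMem_empty _)⟩⟩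
  let J : Type := {p : Finset ι × Finset ι // Legal e p.1 p.2 ∧ Below α p.1 ∧ Below α p.2}
  have hJ : #J < 𝔠 := by
    have hfin : #(Finset (Set.Iio α)) < 𝔠 := by
      rcases finite_or_infinite (Set.Iio α) with h | h
      · exact (lt_aleph0_of_finite _).trans aleph0_lt_continuum
      · rw [mk_finset_of_infinite]
        exact hι α
    have hinj : Function.Injective (fun p : J =>
        ((p.1.1.subtype (· < α) : Finset (Set.Iio α)), (p.1.2.subtype (· < α) :
          Finset (Set.Iio α)))) := by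
      rintro ⟨⟨A, B⟩, h1, h2, h3⟩ ⟨⟨A', B'⟩, h1', h2', h3'⟩ h
      simp only [Prod.mk.injEq] at h
      have hA : A = A' := by
        have := congrArg (Finset.map (Function.Embedding.subtype _)) h.1
        rwa [Finset.subtype_map_of_mem h2, Finset.subtype_map_of_mem h2'] at this
      have hB : B = B' := by
        have := congrArg (Finset.map (Function.Embedding.subtype _)) h.2
        rwa [Finset.subtype_map_of_mem h3, Finset.subtype_map_of_mem h3'] at this
      subst hA hB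
      rfl
    refine (mk_le_of_injective hinj).trans_lt ?_
    rw [mk_prod, lift_id]
    exact mul_lt_of_lt aleph0_le_continuum hfin hfin
  have hYinf : ∀ p : J, (Y S p.1.1 p.1.2).Infinite := fun p => hcomp _ _ p.2.1 p.2.2.1 p.2.2.2
  cases heα : e α with
  | C Z =>
    let Z' : Set ℕ := if (∀ A B, Legal e A B → Below α A → Below α B → (Y S A B ∩ Z).Infinite)
      then Z else Set.univ
    have hZ' : ∀ p : J, (Y S p.1.1 p.1.2 ∩ Z').Infinite := by
      intro p
      by_cases hcond : ∀ A B, Legal e A B → Below α A → Below α B → (Y S A B ∩ Z).Infinite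
      · have : Z' = Z := if_pos hcond
        rw [this]
        exact hcond _ _ p.2.1 p.2.2.1 p.2.2.2
      · have : Z' = Set.univ := if_neg hcond
        rw [this, Set.inter_univ]
        exact hYinf p
    have hJ2 : #(J × Bool) < 𝔠 := by
      rw [mk_prod, lift_id, lift_id]
      exact mul_lt_of_lt aleph0_le_continuum hJ ((lt_aleph0_of_finite _).trans aleph0_lt_continuum)
    obtain ⟨c, hc⟩ := exists_generic hcov hJ2
      (fun p c => {m | m ∈ Y S p.1.1.1 p.1.1.2 ∩ Z' ∧ c m = p.2}) (by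
        rintro ⟨p, b⟩ m
        by_cases hm : m ∈ Y S p.1.1 p.1.2 ∩ Z'
        · have : {c : ℕ → Bool | m ∈ {m | m ∈ Y S p.1.1 p.1.2 ∩ Z' ∧ c m = b}} =
            {c | c m = b} := by
            ext c; exact ⟨fun h => h.2, fun h => ⟨hm, h⟩⟩
          rw [this]
          exact isOpen_coord m b
        · have : {c : ℕ → Bool | m ∈ {m | m ∈ Y S p.1.1 p.1.2 ∩ Z' ∧ c m = b}} = ∅ := by
            ext c
            exact ⟨fun h => absurd h.1 hm, fun h => absurd h (Set.notMem_empty _)⟩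
          rw [this]
          exact isOpen_empty) (by
        rintro ⟨p, b⟩ c₀ L
        obtain ⟨m, hm, hL⟩ := (hZ' p).exists_gt L
        refine ⟨m, hL.le, patch c₀ L m b, fun i hi => patch_lt c₀ b hi, hm, ?_⟩
        exact patch_self c₀ b hL.le)
    refine ⟨genC Z' c, ?_, ?_, ?_, ?_, ?_⟩
    · intro _ A B hL hA hB
      refine (hc ⟨⟨(A, B), hL, hA, hB⟩, true⟩).mono ?_
      rintro m ⟨⟨h1, h2⟩, h3⟩
      exact ⟨h1, h2, h3⟩
    · intro _ _ A B hL hA hB
      refine (hc ⟨⟨(A, B), hL, hA, hB⟩, false⟩).mono ?_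
      rintro m ⟨⟨h1, h2⟩, h3⟩
      refine ⟨h1, fun h4 => ?_⟩
      rw [h4.2] at h3
      exact Bool.noConfusion h3
    · intro Z₁ hZ₁ hcond
      rw [heα] at hZ₁
      injection hZ₁ with hZ₁
      subst hZ₁
      have : Z' = Z := if_pos hcond
      rw [this]
      exact fun m hm => hm.1
    · intro D hD
      rw [heα] at hD
      exact Item.noConfusion hD
    · intro g hg
      rw [heα] at hg
      exact Item.noConfusion hg
  | P D =>
    by_cases hcond : ∀ A B, Legal e A B → Below α A → Below α B →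
      ∀ n, (Y S A B ∩ {m | ∀ i ≤ n, m ∈ D i}).Infinite
    · obtain ⟨c, hc⟩ := exists_generic hcov hJ
        (fun p c => Y S p.1.1 p.1.2 ∩ genP D c) (by
          intro p m
          refine isOpen_of_dep _ (m + 1) ?_
          rintro c d hcd ⟨h1, h2, h3⟩
          refine ⟨h1, ?_, ?_⟩
          · rw [← hcd m (by omega)]; exact h2
          · rw [← ones_congr c d m (fun j hj => hcd j (by omega))]
            exact h3) (by
          intro p c₀ L
          obtain ⟨m, hm, hL⟩ := (hcond _ _ p.2.1 p.2.2.1 p.2.2.2 (ones c₀ L)).exists_gt L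
          refine ⟨m, hL.le, patch c₀ L m true, fun i hi => patch_lt c₀ true hi, hm.1, ?_⟩
          refine mem_genP_of D _ hL.le (fun j h1 h2 => patch_mid c₀ true h1 h2)
            (patch_self c₀ true hL.le) ?_
          rw [ones_congr (patch c₀ L m true) c₀ L (fun j hj => patch_lt c₀ true hj)]
          exact hm.2)
      refine ⟨genP D c, ?_, ?_, ?_, ?_, ?_⟩
      · intro _ A B hL hA hB
        exact hc ⟨(A, B), hL, hA, hB⟩
      · intro _ hC
        rw [heα] at hC
        exact absurd hC (fun h => h)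
      · intro Z hZ
        rw [heα] at hZ
        exact Item.noConfusion hZ
      · intro D₁ hD₁ _ n
        rw [heα] at hD₁
        injection hD₁ with hD₁
        subst hD₁
        exact genP_diff_finite D c n
      · intro g hg
        rw [heα] at hg
        exact Item.noConfusion hg
    · refine ⟨Set.univ, ?_, ?_, ?_, ?_, ?_⟩
      · intro _ A B hL hA hB
        rw [Set.inter_univ]
        exact hcomp A B hL hA hB
      · intro _ hC
        rw [heα] at hC
        exact absurd hC (fun h => h)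
      · intro Z hZ
        rw [heα] at hZ
        exact Item.noConfusion hZ
      · intro D₁ hD₁ hcond'
        rw [heα] at hD₁
        injection hD₁ with hD₁
        subst hD₁
        exact absurd hcond' hcond
      · intro g hg
        rw [heα] at hg
        exact Item.noConfusion hg
  | Q g =>
    by_cases hcond : ∀ k, {m | g m = k}.Finite
    · obtain ⟨c, hc⟩ := exists_generic hcov hJ
        (fun p c => Y S p.1.1 p.1.2 ∩ genQ g c) (by
          intro p m
          refine isOpen_of_dep _ (m + 1) ?_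
          rintro c d hcd ⟨h1, h2, h3⟩
          refine ⟨h1, ?_, ?_⟩
          · rw [← hcd m (by omega)]; exact h2
          · intro j hj hgj
            rw [← hcd j (by omega)]
            exact h3 j hj hgj) (by
          intro p c₀ L
          have hfin : (⋃ j ∈ Finset.range L, {m | g m = g j}).Finite :=
            Set.Finite.biUnion (Finset.finite_toSet _) fun j _ => hcond (g j)
          obtain ⟨m, hm, hL⟩ := ((hYinf p).sdiff hfin).exists_gt L
          refine ⟨m, hL.le, patch c₀ L m true, fun i hi => patch_lt c₀ true hi, hm.1, ?_⟩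
          refine mem_genQ_of g _ (fun j h1 h2 => patch_mid c₀ true h1 h2)
            (patch_self c₀ true hL.le) ?_
          intro j hj hgj
          exact hm.2 (Set.mem_biUnion (Finset.mem_coe.2 (Finset.mem_range.2 hj)) hgj.symm))
      refine ⟨genQ g c, ?_, ?_, ?_, ?_, ?_⟩
      · intro _ A B hL hA hB
        exact hc ⟨(A, B), hL, hA, hB⟩
      · intro _ hC
        rw [heα] at hC
        exact absurd hC (fun h => h)
      · intro Z hZ
        rw [heα] at hZ
        exact Item.noConfusion hZ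
      · intro D hD
        rw [heα] at hD
        exact Item.noConfusion hD
      · intro g₁ hg₁ _ a ha b hb hab
        rw [heα] at hg₁
        injection hg₁ with hg₁
        subst hg₁
        exact genQ_subsingleton g c a b ha hb hab
    · refine ⟨Set.univ, ?_, ?_, ?_, ?_, ?_⟩
      · intro _ A B hL hA hB
        rw [Set.inter_univ]
        exact hcomp A B hL hA hB
      · intro _ hC
        rw [heα] at hC
        exact absurd hC (fun h => h)
      · intro Z hZ
        rw [heα] at hZ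
        exact Item.noConfusion hZ
      · intro D hD
        rw [heα] at hD
        exact Item.noConfusion hD
      · intro g₁ hg₁ hcond'
        rw [heα] at hg₁
        injection hg₁ with hg₁
        subst hg₁
        exact absurd hcond' hcond

theorem mk_item : #Item ≤ 𝔠 := by
  have h1 : #(Set ℕ) = 𝔠 := by simp [mk_set]
  have h2 : #(ℕ → Set ℕ) = 𝔠 := by simp
  have h3 : #(ℕ → ℕ) = 𝔠 := by simp
  let f : Item → Set ℕ ⊕ ((ℕ → Set ℕ) ⊕ (ℕ → ℕ)) := fun it =>
    match it with
    | Item.C Z => Sum.inl Z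
    | Item.P D => Sum.inr (Sum.inl D)
    | Item.Q g => Sum.inr (Sum.inr g)
  have hf : Function.Injective f := by
    intro a b hab
    cases a <;> cases b <;> simp_all [f]
  refine (mk_le_of_injective hf).trans ?_
  rw [mk_sum, mk_sum, h1, h2, h3]
  simp

/-- **Selective independent families from `cov(M) = c`.** If the covering number of the meager
ideal equals the continuum, then there is a selective independent family. -/
theorem result (hcov : covMeager = 𝔠) : ∃ I : Set (Set ℕ), IsSelective I := by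
  classical
  let ι : Type := (𝔠 : Cardinal.{0}).ord.ToType
  have hmk : #ι = 𝔠 := mk_ord_toType 𝔠
  have hι : ∀ α : ι, #(Set.Iio α) < 𝔠 := by
    intro α
    have := mk_Iio_lt α (by rw [hmk]; exact (Ordinal.type_toType _).symm)
    rwa [hmk] at this
  have hprod : #(ι × Item) = #ι := by
    rw [mk_prod, lift_id, lift_id, hmk]
    refine le_antisymm ?_ ?_
    · exact (mul_le_mul' le_rfl mk_item).trans (continuum_mul_self).le
    · have : (1 : Cardinal) ≤ #Item := by
        rw [← Cardinal.mk_unit]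
        exact mk_le_of_injective (f := fun _ => Item.C ∅) (fun _ _ _ => rfl)
      calc 𝔠 = 𝔠 * 1 := (mul_one _).symm
        _ ≤ 𝔠 * #Item := mul_le_mul' le_rfl this
  obtain ⟨φ⟩ := Cardinal.eq.1 hprod
  let e : ι → Item := fun α => (φ.symm α).2
  have he : ∀ (it : Item) (β : ι), ∃ γ, β < γ ∧ e γ = it := by
    intro it β
    by_contra hcon
    push Not at hcon
    have hinj : Function.Injective (fun α : ι => (⟨φ (α, it), by
        by_contra h
        exact hcon _ (not_le.1 h) (by simp [e])⟩ : Set.Iic β)) := by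
      intro a b hab
      simp only [Subtype.mk.injEq, EmbeddingLike.apply_eq_iff_eq, Prod.mk.injEq, and_true] at hab
      exact hab
    have h1 : #ι ≤ #(Set.Iic β) := mk_le_of_injective hinj
    have h2 : #(Set.Iic β) < 𝔠 := by
      have : (Set.Iic β) = insert β (Set.Iio β) := by
        rw [Set.Iio_insert]
      rw [this]
      refine (mk_insert_le).trans_lt ?_
      exact add_lt_of_lt aleph0_le_continuum (hι β) (one_lt_aleph0.trans aleph0_lt_continuum)
    rw [hmk] at h1
    exact absurd h1 (not_le.2 h2)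
  have hne : Nonempty ι := by
    rw [← mk_ne_zero_iff, hmk]
    exact continuum_ne_zero
  obtain ⟨S, hS⟩ := exists_seq e (exists_good hcov hι e)
  exact ⟨fam e S, selective he hne hS⟩

end Pool.Agent.Results.MP_4ce21c_lc.CovMeagerContinuum
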